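import Pool.Agent.H41.CL.Defs

set_option autoImplicit false

/-! # MP_76d27f_co (helper41), part BIP (helper410): random configurations are far from bipartite -/

namespace Pool.Agent.H410.CL

open Finset Pool.Agent.H41.CL

/-- the number of the pairs of positions which are not split by `A` -/
def unc {k : ℕ} (A : Finset (Q k)) : ℕ :=
  (univ.filter (fun i : Fin (3 * k) => ((i, false) ∈ A ↔ (i, true) ∈ A))).card

theorem card_eq {k : ℕ} (A : Finset (Q k)) :
    A.card = ∑ i : Fin (3 * k), ((if (i, false) ∈ A then 1 else 0) +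
      (if (i, true) ∈ A then 1 else 0)) := by
  have h1 : A.card = ∑ q : Q k, if q ∈ A then 1 else 0 := by
    rw [Finset.sum_boole]
    simp
  rw [h1, Fintype.sum_prod_type]
  refine Finset.sum_congr rfl fun i _ => ?_
  rw [Fintype.sum_bool, add_comm]

theorem unc_eq {k : ℕ} (A : Finset (Q k)) :
    unc A = ∑ i : Fin (3 * k), (if ((i, false) ∈ A ↔ (i, true) ∈ A) then 1 else 0) := by
  rw [Finset.sum_boole]
  simp [unc]

theorem card_le {k : ℕ} (A : Finset (Q k)) : A.card ≤ 3 * k + unc A := by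
  calc A.card = _ := card_eq A
    _ ≤ ∑ i : Fin (3 * k), (1 + (if ((i, false) ∈ A ↔ (i, true) ∈ A) then 1 else 0)) := by
        refine Finset.sum_le_sum fun i _ => ?_
        by_cases h1 : (i, false) ∈ A <;> by_cases h2 : (i, true) ∈ A <;> simp [h1, h2]
    _ = 3 * k + unc A := by
        rw [Finset.sum_add_distrib, unc_eq]
        simp

theorem le_card {k : ℕ} (A : Finset (Q k)) : 3 * k ≤ A.card + unc A := by
  calc 3 * k = ∑ _i : Fin (3 * k), 1 := by simp
    _ ≤ ∑ i : Fin (3 * k), (((if (i, false) ∈ A then 1 else 0) +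
      (if (i, true) ∈ A then 1 else 0)) + (if ((i, false) ∈ A ↔ (i, true) ∈ A) then 1 else 0)) := by
        refine Finset.sum_le_sum fun i _ => ?_
        by_cases h1 : (i, false) ∈ A <;> by_cases h2 : (i, true) ∈ A <;> simp [h1, h2]
    _ = A.card + unc A := by
        rw [Finset.sum_add_distrib, ← card_eq, ← unc_eq]

/-- the generating function -/
theorem gen (k : ℕ) (u : ℝ) (hu : 0 ≤ u) :
    ∑ A : Finset (Q k), u ^ unc A ≤ (2 + 2 * u) ^ (3 * k) := by
  classical
  set φ : Finset (Q k) → Fin (3 * k) → Bool × Bool := fun A i =>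
    (decide ((i, false) ∈ A), decide ((i, true) ∈ A)) with hφ
  set g : (Fin (3 * k) → Bool × Bool) → ℝ := fun p => ∏ i, (if (p i).1 = (p i).2 then u else 1)
    with hg
  have hinj : Function.Injective φ := by
    intro A A' h
    ext ⟨i, b⟩
    have h1 := congrFun h i
    simp only [hφ, Prod.mk.injEq, decide_eq_decide] at h1
    rcases b with _ | _
    · exact h1.1
    · exact h1.2
  have h1 : ∀ A : Finset (Q k), u ^ unc A = g (φ A) := by
    intro A
    simp only [hg, hφ, decide_eq_decide]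
    rw [Finset.prod_ite, Finset.prod_const_one, mul_one, Finset.prod_const]
    rfl
  calc ∑ A : Finset (Q k), u ^ unc A = ∑ A : Finset (Q k), g (φ A) :=
        Finset.sum_congr rfl fun A _ => h1 A
    _ = ∑ p ∈ univ.image φ, g p := by
        rw [Finset.sum_image fun a _ b _ h => hinj h]
    _ ≤ ∑ p, g p := by
        refine Finset.sum_le_univ_sum_of_nonneg fun p => ?_
        refine Finset.prod_nonneg fun i _ => ?_
        split_ifs
        · exact hu
        · exact zero_le_one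
    _ = ∏ _i : Fin (3 * k), ∑ b : Bool × Bool, (if b.1 = b.2 then u else 1) := by
        rw [Finset.prod_univ_sum, Fintype.piFinset_univ]
    _ = (2 + 2 * u) ^ (3 * k) := by
        have h2 : ∑ b : Bool × Bool, (if b.1 = b.2 then u else 1) = 2 + 2 * u := by
          rw [Fintype.sum_prod_type]
          simp only [Fintype.sum_bool]
          norm_num
          ring
        rw [h2, Finset.prod_const, Finset.card_univ, Fintype.card_fin]

/-- few sets split nearly all pairs -/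
theorem few (k : ℕ) : ((univ.filter fun A : Finset (Q k) => 10 * unc A ≤ k).card : ℝ) ≤
    30 ^ (k / 10) * (31 / 15 : ℝ) ^ (3 * k) := by
  have h1 := gen k (1 / 30) (by norm_num)
  have h2 : ((univ.filter fun A : Finset (Q k) => 10 * unc A ≤ k).card : ℝ) *
      (1 / 30 : ℝ) ^ (k / 10) ≤ ∑ A : Finset (Q k), (1 / 30 : ℝ) ^ unc A := by
    rw [← nsmul_eq_mul, ← Finset.sum_const]
    calc ∑ _A ∈ univ.filter (fun A : Finset (Q k) => 10 * unc A ≤ k), (1 / 30 : ℝ) ^ (k / 10)
        ≤ ∑ A ∈ univ.filter (fun A : Finset (Q k) => 10 * unc A ≤ k), (1 / 30 : ℝ) ^ unc A := by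
          refine Finset.sum_le_sum fun A hA => ?_
          have h3 : unc A ≤ k / 10 := by
            have := (Finset.mem_filter.1 hA).2
            omega
          exact pow_le_pow_of_le_one (by norm_num) (by norm_num) h3
      _ ≤ _ := Finset.sum_le_univ_sum_of_nonneg fun A => by positivity
  have h3 := h2.trans h1
  have h4 : (2 + 2 * (1 / 30) : ℝ) = 31 / 15 := by norm_num
  rw [h4] at h3
  have h5 : (30 : ℝ) ^ (k / 10) * (1 / 30 : ℝ) ^ (k / 10) = 1 := by
    rw [← mul_pow]; norm_num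
  calc ((univ.filter fun A : Finset (Q k) => 10 * unc A ≤ k).card : ℝ)
      = 30 ^ (k / 10) * (((univ.filter fun A : Finset (Q k) => 10 * unc A ≤ k).card : ℝ) *
        (1 / 30 : ℝ) ^ (k / 10)) := by
        rw [mul_left_comm, h5, mul_one]
    _ ≤ _ := by gcongr

theorem choose_near (m : ℕ) : ∀ d : ℕ, 3 * d ≤ m + 2 →
    (2 * m).choose m ≤ (2 * m).choose (m + d) * 2 ^ d := by
  intro d
  induction d with
  | zero => intro _; simp
  | succ d ih =>
    intro hd
    have h1 := ih (by omega)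
    have h2 := Nat.choose_succ_right_eq (2 * m) (m + d)
    have h3 : (2 * m).choose (m + d) ≤ 2 * (2 * m).choose (m + d + 1) := by
      have h4 : (2 * m).choose (m + d) * (m + d + 1) ≤
          (2 * (2 * m).choose (m + d + 1)) * (m + d + 1) := by
        have h5 : m + d + 1 ≤ 2 * (2 * m - (m + d)) := by omega
        calc (2 * m).choose (m + d) * (m + d + 1) ≤
            (2 * m).choose (m + d) * (2 * (2 * m - (m + d))) := Nat.mul_le_mul_left _ h5
          _ = 2 * ((2 * m).choose (m + d) * (2 * m - (m + d))) := by ring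
          _ = 2 * ((2 * m).choose (m + d + 1) * (m + d + 1)) := by rw [h2]
          _ = _ := by ring
      exact Nat.le_of_mul_le_mul_right h4 (by omega)
    calc (2 * m).choose m ≤ (2 * m).choose (m + d) * 2 ^ d := h1
      _ ≤ (2 * (2 * m).choose (m + d + 1)) * 2 ^ d := Nat.mul_le_mul_right _ h3
      _ = (2 * m).choose (m + (d + 1)) * 2 ^ (d + 1) := by
        rw [pow_succ, ← add_assoc]; ring

theorem choose_lower {m j a : ℕ} (hm : 0 < m) (hj : 3 * j ≤ m + 2) (h1 : a ≤ m + j)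
    (h2 : m ≤ a + j) : 4 ^ m ≤ 2 * m * ((2 * m).choose a * 2 ^ j) := by
  have h3 := Nat.four_pow_le_two_mul_self_mul_centralBinom m hm
  rw [Nat.centralBinom_eq_two_mul_choose] at h3
  refine h3.trans (Nat.mul_le_mul_left _ ?_)
  rcases le_total m a with h | h
  · obtain ⟨d, rfl⟩ := Nat.exists_eq_add_of_le h
    refine (choose_near m d (by omega)).trans (Nat.mul_le_mul_left _ ?_)
    exact Nat.pow_le_pow_right (by norm_num) (by omega)
  · obtain ⟨d, rfl⟩ := Nat.exists_eq_add_of_le h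
    have h4 : (2 * (a + d)).choose a = (2 * (a + d)).choose (a + d + d) := by
      apply Nat.choose_symm_of_eq_add
      ring
    rw [h4]
    refine (choose_near (a + d) d (by omega)).trans (Nat.mul_le_mul_left _ ?_)
    exact Nat.pow_le_pow_right (by norm_num) (by omega)

/-- the number of configurations with few uncut pairs for a given set -/
theorem one (hsub : S_SUB) {k : ℕ} (hk : 0 < k) (X : Finset (Fin (2 * k))) :
    ({τ : Q k ≃ P k | 10 * uncutT τ X ≤ k}.ncard : ℝ) * 4 ^ (3 * k) ≤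
      6 * k * 2 ^ (k / 10) * (30 ^ (k / 10) * (31 / 15 : ℝ) ^ (3 * k)) *
        ((6 * k).factorial : ℝ) := by
  classical
  set B : Finset (P k) := X ×ˢ univ with hB
  have hBc : B.card = 3 * X.card := by
    rw [hB, Finset.card_product, Finset.card_univ, Fintype.card_fin, mul_comm]
  set 𝒜 : Finset (Finset (Q k)) := univ.filter fun A => A.card = 3 * X.card ∧ 10 * unc A ≤ k
    with h𝒜
  have hQ : Fintype.card (Q k) = 6 * k := by
    simp [Q]; ring
  have hP : Fintype.card (P k) = 6 * k := by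
    simp [P]; ring
  have hset : {τ : Q k ≃ P k | 10 * uncutT τ X ≤ k} =
      {τ : Q k ≃ P k | B.map τ.symm.toEmbedding ∈ 𝒜} := by
    ext τ
    have hmem : ∀ i b, ((i, b) ∈ B.map τ.symm.toEmbedding ↔ (τ (i, b)).1 ∈ X) := by
      intro i b
      rw [Finset.mem_map_equiv, Equiv.symm_symm, hB, Finset.mem_product]
      simp
    have hunc : unc (B.map τ.symm.toEmbedding) = uncutT τ X := by
      unfold unc uncutT
      congr 1
      ext i
      simp only [Finset.mem_filter, Finset.mem_univ, true_and, hmem]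
    simp only [Set.mem_ofPred_eq, h𝒜, Finset.mem_filter, Finset.mem_univ, true_and, hunc,
      Finset.card_map, hBc]
  have h1 := hsub (Q k) (P k) (6 * k) (3 * X.card) hQ hP B hBc 𝒜 (fun A hA =>
    (Finset.mem_filter.1 hA).2.1)
  rw [← hset] at h1
  set Nn : ℕ := {τ : Q k ≃ P k | 10 * uncutT τ X ≤ k}.ncard with hNn
  have hXc : X.card ≤ 2 * k := by
    have := Finset.card_le_univ X
    rwa [Fintype.card_fin] at this
  have hchoose : 0 < (6 * k).choose (3 * X.card) := Nat.choose_pos (by omega)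
  rcases Finset.eq_empty_or_nonempty 𝒜 with he | ⟨A, hA⟩
  · rw [he, Finset.card_empty, zero_mul] at h1
    have h2 : Nn = 0 := by
      rcases Nat.mul_eq_zero.1 h1 with h | h
      · exact h
      · omega
    rw [h2]
    have : (0 : ℝ) ≤ 6 * k * 2 ^ (k / 10) * (30 ^ (k / 10) * (31 / 15 : ℝ) ^ (3 * k)) *
        ((6 * k).factorial : ℝ) := by positivity
    simpa using this
  · have hA' := (Finset.mem_filter.1 hA).2
    have h2 := card_le A
    have h3 := le_card A
    have h4 := choose_lower (m := 3 * k) (j := k / 10) (a := 3 * X.card) (by omega) (by omega)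
      (by omega) (by omega)
    have h5 : (𝒜.card : ℝ) ≤ 30 ^ (k / 10) * (31 / 15 : ℝ) ^ (3 * k) := by
      refine le_trans ?_ (few k)
      have h6 : 𝒜 ⊆ univ.filter (fun A : Finset (Q k) => 10 * unc A ≤ k) := by
        intro A hA
        rw [h𝒜, Finset.mem_filter] at hA
        exact Finset.mem_filter.2 ⟨Finset.mem_univ _, hA.2.2⟩
      exact_mod_cast Finset.card_le_card h6
    have h6 : 2 * (3 * k) = 6 * k := by ring
    rw [h6] at h4
    have h7 : (4 : ℝ) ^ (3 * k) ≤ 6 * k * (((6 * k).choose (3 * X.card) : ℝ) * 2 ^ (k / 10)) := by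
      exact_mod_cast h4
    have h8 : (Nn : ℝ) * ((6 * k).choose (3 * X.card) : ℝ) = 𝒜.card * ((6 * k).factorial : ℝ) := by
      exact_mod_cast h1
    calc (Nn : ℝ) * 4 ^ (3 * k) ≤
        Nn * (6 * k * (((6 * k).choose (3 * X.card) : ℝ) * 2 ^ (k / 10))) := by gcongr
      _ = 6 * k * 2 ^ (k / 10) * (Nn * ((6 * k).choose (3 * X.card) : ℝ)) := by ring
      _ = 6 * k * 2 ^ (k / 10) * 𝒜.card * ((6 * k).factorial : ℝ) := by rw [h8]; ring
      _ ≤ _ := by gcongr

theorem t_BIP (hsub : S_SUB) : S_BIP := by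
  classical
  refine ⟨9 / 10, by norm_num, by norm_num, ?_⟩
  have h1 : Filter.Tendsto (fun n : ℕ => (n : ℝ) * (14 / 15 : ℝ) ^ n) Filter.atTop (nhds 0) :=
    tendsto_self_mul_const_pow_of_lt_one (by norm_num) (by norm_num)
  obtain ⟨k0, hk0⟩ := Filter.eventually_atTop.1
    (h1.eventually_lt_const (show (0 : ℝ) < 1 / 6 by norm_num))
  refine ⟨max k0 1, fun k hk => ?_⟩
  have hk1 : 0 < k := by omega
  have h2 := hk0 k (by omega)
  -- union bound
  have h3 : ({τ : Q k ≃ P k | ∃ X : Finset (Fin (2 * k)), 10 * uncutT τ X ≤ k}.ncard : ℝ) ≤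
      ∑ X : Finset (Fin (2 * k)), ({τ : Q k ≃ P k | 10 * uncutT τ X ≤ k}.ncard : ℝ) := by
    have h4 : {τ : Q k ≃ P k | ∃ X : Finset (Fin (2 * k)), 10 * uncutT τ X ≤ k} =
        ⋃ X ∈ (Finset.univ : Finset (Finset (Fin (2 * k)))), {τ : Q k ≃ P k | 10 * uncutT τ X ≤ k} := by
      ext τ
      simp
    rw [h4]
    exact_mod_cast Finset.set_ncard_biUnion_le _ _
  have h4 : (∑ X : Finset (Fin (2 * k)), ({τ : Q k ≃ P k | 10 * uncutT τ X ≤ k}.ncard : ℝ)) *
      4 ^ (3 * k) ≤ 2 ^ (2 * k) * (6 * k * 2 ^ (k / 10) * (30 ^ (k / 10) *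
        (31 / 15 : ℝ) ^ (3 * k)) * ((6 * k).factorial : ℝ)) := by
    rw [Finset.sum_mul]
    calc _ ≤ ∑ _X : Finset (Fin (2 * k)), (6 * k * 2 ^ (k / 10) * (30 ^ (k / 10) *
        (31 / 15 : ℝ) ^ (3 * k)) * ((6 * k).factorial : ℝ)) :=
          Finset.sum_le_sum fun X _ => one hsub hk1 X
      _ = _ := by
        rw [Finset.sum_const, Finset.card_univ, Fintype.card_finset, Fintype.card_fin,
          nsmul_eq_mul]
        push_cast
        ring
  have h5 : (60 : ℝ) ^ (k / 10) ≤ (151 / 100 : ℝ) ^ k := by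
    calc (60 : ℝ) ^ (k / 10) ≤ ((151 / 100 : ℝ) ^ 10) ^ (k / 10) := by
          gcongr
          norm_num
      _ = (151 / 100 : ℝ) ^ (10 * (k / 10)) := by rw [← pow_mul]
      _ ≤ _ := pow_le_pow_right₀ (by norm_num) (by omega)
  have h6 : (2 : ℝ) ^ (2 * k) * (2 ^ (k / 10) * (30 ^ (k / 10) * (31 / 15 : ℝ) ^ (3 * k))) ≤
      (84 / 100 : ℝ) ^ k * 4 ^ (3 * k) := by
    have e1 : (2 : ℝ) ^ (k / 10) * 30 ^ (k / 10) = 60 ^ (k / 10) := by
      rw [← mul_pow]; norm_num
    calc (2 : ℝ) ^ (2 * k) * (2 ^ (k / 10) * (30 ^ (k / 10) * (31 / 15 : ℝ) ^ (3 * k)))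
        = (2 ^ 2) ^ k * 60 ^ (k / 10) * ((31 / 15 : ℝ) ^ 3) ^ k := by
          rw [← e1, pow_mul, pow_mul]; ring
      _ ≤ (2 ^ 2) ^ k * (151 / 100 : ℝ) ^ k * ((31 / 15 : ℝ) ^ 3) ^ k := by gcongr
      _ = (2 ^ 2 * (151 / 100) * (31 / 15 : ℝ) ^ 3) ^ k := by rw [mul_pow, mul_pow]
      _ ≤ ((84 / 100 : ℝ) * 4 ^ 3) ^ k := pow_le_pow_left₀ (by norm_num) (by norm_num) k
      _ = (84 / 100 : ℝ) ^ k * 4 ^ (3 * k) := by rw [mul_pow, pow_mul]
  have h7 : (6 : ℝ) * k * (84 / 100 : ℝ) ^ k ≤ (9 / 10 : ℝ) ^ k := by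
    have e1 : (84 / 100 : ℝ) ^ k = (14 / 15 : ℝ) ^ k * (9 / 10 : ℝ) ^ k := by
      rw [← mul_pow]; norm_num
    rw [e1]
    have e2 : (6 : ℝ) * k * (14 / 15 : ℝ) ^ k ≤ 1 := by linarith
    calc (6 : ℝ) * k * ((14 / 15 : ℝ) ^ k * (9 / 10 : ℝ) ^ k) =
        (6 * k * (14 / 15 : ℝ) ^ k) * (9 / 10 : ℝ) ^ k := by ring
      _ ≤ 1 * (9 / 10 : ℝ) ^ k := by gcongr
      _ = _ := one_mul _
  have h8 : (0 : ℝ) < 4 ^ (3 * k) := by positivity
  refine le_of_mul_le_mul_right ?_ h8
  calc _ ≤ (∑ X : Finset (Fin (2 * k)), ({τ : Q k ≃ P k | 10 * uncutT τ X ≤ k}.ncard : ℝ)) *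
      4 ^ (3 * k) := by gcongr
    _ ≤ _ := h4
    _ = 6 * k * ((6 * k).factorial : ℝ) * (2 ^ (2 * k) * (2 ^ (k / 10) * (30 ^ (k / 10) *
        (31 / 15 : ℝ) ^ (3 * k)))) := by ring
    _ ≤ 6 * k * ((6 * k).factorial : ℝ) * ((84 / 100 : ℝ) ^ k * 4 ^ (3 * k)) := by gcongr
    _ = (6 * k * (84 / 100 : ℝ) ^ k) * ((6 * k).factorial : ℝ) * 4 ^ (3 * k) := by ring
    _ ≤ (9 / 10 : ℝ) ^ k * ((6 * k).factorial : ℝ) * 4 ^ (3 * k) := by gcongr

end Pool.Agent.H410.CL
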